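import Pool.Agent.R498.MP.UPoly

set_option autoImplicit false

/-!
# Strings of consecutive primes `p` with almost prime `n - (h p) ^ 2`, for every large even `n`
-/

namespace Pool.Agent.Results.MP_d48457_nt.PrimeStrings

open Filter

/-- `n ≠ 0` is up to the sign a product of at most `r` primes, counted with multiplicity, all of them at
least `w`. -/
def AlmostPrime (r : ℕ) (w : ℝ) (n : ℤ) : Prop :=
  n ≠ 0 ∧ n.natAbs.primeFactorsList.length ≤ r ∧ ∀ q : ℕ, q.Prime → (q : ℤ) ∣ n → w ≤ q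

/-- The primes in the interval `[x, x + C]` are exactly the numbers `x + s`, `s ∈ H`. -/
def PrimePattern (C : ℕ) (H : Finset ℕ) (x : ℕ) : Prop := ∀ y ≤ C, (x + y).Prime ↔ y ∈ H

/-- **Every large even `n` is a square `(h p) ^ 2` plus an almost prime, for strings of consecutive primes `p`.**
Let `q` be squarefree. For every `m` there are `K`, `B` and `δ > 0` such that for every `A` there is an `r` such
that, for every finite set `S` of at least `K` nonnegative integers, the following holds for all large even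
`n`, with `h = 3` if `n ≡ 1` modulo `3` and `h = 1` otherwise, all `N ≥ n ^ (1 / A)` and all `e` for which
`e (n - (h e) ^ 2)` is coprime to `q` (for instance `q = 1`). There are a subset `H` of `S` with at least `m`
elements and at least `N / (log N) ^ B` numbers `x` with `N < x ≤ x + max S ≤ 2 N` such that the primes in
`[x, x + max S]` are exactly the numbers `x + s`, `s ∈ H`, all these primes `p` are `≡ e` modulo `q`, and
`n - (h p) ^ 2 ≠ 0` (which is positive if `6 N < √n`) has at most `r` prime factors, all of them at least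
`N ^ δ`. -/
theorem result (q : ℕ) (hq : Squarefree q) (m : ℕ) : ∃ (K B : ℕ) (δ : ℝ), 0 < δ ∧
    ∀ A : ℕ, ∃ r : ℕ, ∀ S : Finset ℕ, K ≤ S.card → ∀ᶠ n : ℕ in atTop, Even n →
      ∀ h : ℤ, h = (if n % 3 = 1 then 3 else 1) → ∀ N : ℕ, n ≤ N ^ A →
      ∀ e : ℕ, IsCoprime ((e : ℤ) * (n - (h * e) ^ 2)) (q : ℤ) →
      ∃ H ⊆ S, m ≤ H.card ∧ ∃ T : Finset ℕ, (N : ℝ) ≤ Real.log N ^ B * T.card ∧
        ∀ x ∈ T, N < x ∧ x + S.sup id ≤ 2 * N ∧ PrimePattern (S.sup id) H x ∧
          ∀ s ∈ H, x + s ≡ e [MOD q] ∧ AlmostPrime r ((N : ℝ) ^ δ)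
            (n - (h * ((x + s : ℕ) : ℤ)) ^ 2) := by
  have main : ∀ h : ℤ, ∃ (K B : ℕ) (δ : ℝ), 0 < δ ∧ ∀ A : ℕ, ∃ r : ℕ, ∀ S : Finset ℕ,
      K ≤ S.card → ∀ᶠ n : ℕ in atTop, Even n → h = (if n % 3 = 1 then 3 else 1) →
      ∀ N : ℕ, n ≤ N ^ A →
      ∀ e : ℕ, IsCoprime ((e : ℤ) * (n - (h * e) ^ 2)) (q : ℤ) →
      ∃ H ⊆ S, m ≤ H.card ∧ ∃ T : Finset ℕ, (N : ℝ) ≤ Real.log N ^ B * T.card ∧
        ∀ x ∈ T, N < x ∧ x + S.sup id ≤ 2 * N ∧ PrimePattern (S.sup id) H x ∧
          ∀ s ∈ H, x + s ≡ e [MOD q] ∧ AlmostPrime r ((N : ℝ) ^ δ)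
            (n - (h * ((x + s : ℕ) : ℤ)) ^ 2) := by
    intro h
    obtain ⟨G, hG⟩ : ∃ G : Polynomial ℤ, G = (Polynomial.C h * Polynomial.X) ^ 2 := ⟨_, rfl⟩
    have hGe : ∀ x : ℤ, G.eval x = (h * x) ^ 2 := fun x => by rw [hG]; simp
    obtain ⟨K, B, δ, hδ, hmain⟩ := Pool.Agent.R498.MP.hn_runs (fun i : Fin 0 => i.elim0) G q hq m
    refine ⟨K, B, δ, hδ, fun A => ?_⟩
    obtain ⟨r, hr⟩ := hmain A
    refine ⟨r, fun S hS => ?_⟩
    filter_upwards [hr S hS] with n hn
    intro hev hh N hN e he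
    obtain ⟨H, hH, hHm, T, hT, hmem⟩ := hn N hN (fun p hp => by
      simp only [Finset.univ_eq_empty, Finset.prod_empty, mul_one]
      simp_rw [hGe]
      have hpZ : Prime (p : ℤ) := Nat.prime_iff_prime_int.1 hp
      have h1 : ¬ (p : ℤ) ∣ 1 := fun h => hp.one_lt.ne' (Nat.dvd_one.1 (by exact_mod_cast h))
      by_contra hcon
      push Not at hcon
      have g1 : (p : ℤ) ∣ n - h ^ 2 := by
        have := hcon 1
        rw [one_mul, mul_one] at this
        exact this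
      by_cases hp2 : p = 2
      · subst hp2
        obtain ⟨k, hk⟩ := hev
        rw [hk] at g1
        push_cast at g1
        split_ifs at hh
        · rw [hh] at g1
          omega
        · rw [hh] at g1
          omega
      by_cases hp3 : p = 3
      · subst hp3
        split_ifs at hh with h3
        · rw [hh] at g1
          push_cast at g1
          omega
        · rw [hh] at g1
          push_cast at g1
          omega
      have h2' : ¬ (p : ℤ) ∣ 2 := by
        intro h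
        have : p ∣ 2 := by exact_mod_cast h
        exact hp2 ((Nat.prime_dvd_prime_iff_eq hp Nat.prime_two).1 this)
      have h3' : ¬ (p : ℤ) ∣ 3 := by
        intro h
        have : p ∣ 3 := by exact_mod_cast h
        exact hp3 ((Nat.prime_dvd_prime_iff_eq hp Nat.prime_three).1 this)
      have g4 : (p : ℤ) ∣ n - (h * 2) ^ 2 := (hpZ.dvd_or_dvd (hcon 2)).resolve_left h2'
      have g5 := dvd_sub g1 g4
      have e1 : (n : ℤ) - h ^ 2 - (n - (h * 2) ^ 2) = 3 * h ^ 2 := by ring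
      rw [e1] at g5
      have g6 := hpZ.dvd_of_dvd_pow ((hpZ.dvd_or_dvd g5).resolve_left h3')
      split_ifs at hh
      · rw [hh] at g6
        exact h3' g6
      · rw [hh] at g6
        exact h1 g6) e (by
      simp only [Finset.univ_eq_empty, Finset.prod_empty, mul_one]
      rw [hGe]
      exact he)
    refine ⟨H, hH, hHm, T, hT, fun x hx => ?_⟩
    obtain ⟨g1, g2, g3, g4⟩ := hmem x hx
    refine ⟨g1, g2, fun y hy => ⟨fun hp => ?_, fun hyH => (g3 y hyH).1⟩, fun s hs => ?_⟩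
    · by_contra hcon
      exact g4 y hy hcon (fun _ _ _ i => i.elim0) hp
    · obtain ⟨-, k2, -, k3⟩ := g3 s hs
      rw [hGe] at k3
      exact ⟨k2, k3⟩
  obtain ⟨K1, B1, δ1, hδ1, h1⟩ := main 1
  obtain ⟨K3, B3, δ3, hδ3, h3⟩ := main 3
  refine ⟨max K1 K3, max B1 B3, min δ1 δ3, lt_min hδ1 hδ3, fun A => ?_⟩
  obtain ⟨r1, hr1⟩ := h1 A
  obtain ⟨r3, hr3⟩ := h3 A
  refine ⟨max r1 r3, fun S hS => ?_⟩
  filter_upwards [hr1 S ((le_max_left _ _).trans hS), hr3 S ((le_max_right _ _).trans hS),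
    eventually_gt_atTop (3 ^ A)] with n hn1 hn3 hbig
  intro hev h hh N hN e he
  have hN3 : 3 ≤ N := by
    by_contra hcon
    push Not at hcon
    have h5 : N ^ A ≤ 3 ^ A := Nat.pow_le_pow_left (by omega) A
    omega
  have hNr : (3 : ℝ) ≤ N := by exact_mod_cast hN3
  have hlog : 1 ≤ Real.log N := by
    have h5 : Real.exp 1 ≤ N := by
      have := Real.exp_one_lt_d9
      linarith
    exact (Real.le_log_iff_exp_le (by linarith)).2 h5
  have up : ∀ (B' : ℕ) (T : Finset ℕ), B' ≤ max B1 B3 →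
      (N : ℝ) ≤ Real.log N ^ B' * T.card → (N : ℝ) ≤ Real.log N ^ (max B1 B3) * T.card := by
    intro B' T hB' h5
    refine h5.trans ?_
    apply mul_le_mul_of_nonneg_right _ (Nat.cast_nonneg _)
    exact pow_le_pow_right₀ hlog hB'
  have ap : ∀ (r' : ℕ) (δ' : ℝ) (z : ℤ), r' ≤ max r1 r3 → min δ1 δ3 ≤ δ' →
      AlmostPrime r' ((N : ℝ) ^ δ') z → AlmostPrime (max r1 r3) ((N : ℝ) ^ (min δ1 δ3)) z := by
    intro r' δ' z h5 h6 h7
    refine ⟨h7.1, h7.2.1.trans h5, fun p hp hpd => le_trans ?_ (h7.2.2 p hp hpd)⟩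
    exact Real.rpow_le_rpow_of_exponent_le (by linarith) h6
  by_cases h3 : n % 3 = 1
  · rw [if_pos h3] at hh
    subst hh
    obtain ⟨H, hH, hHm, T, hT, hmem⟩ := hn3 hev (by rw [if_pos h3]) N hN e he
    refine ⟨H, hH, hHm, T, up B3 T (le_max_right _ _) hT, fun x hx => ?_⟩
    obtain ⟨g1, g2, g3, g4⟩ := hmem x hx
    exact ⟨g1, g2, g3, fun s hs => ⟨(g4 s hs).1,
      ap r3 δ3 _ (le_max_right _ _) (min_le_right _ _) (g4 s hs).2⟩⟩
  · rw [if_neg h3] at hh
    subst hh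
    obtain ⟨H, hH, hHm, T, hT, hmem⟩ := hn1 hev (by rw [if_neg h3]) N hN e he
    refine ⟨H, hH, hHm, T, up B1 T (le_max_left _ _) hT, fun x hx => ?_⟩
    obtain ⟨g1, g2, g3, g4⟩ := hmem x hx
    exact ⟨g1, g2, g3, fun s hs => ⟨(g4 s hs).1,
      ap r1 δ1 _ (le_max_left _ _) (min_le_left _ _) (g4 s hs).2⟩⟩

end Pool.Agent.Results.MP_d48457_nt.PrimeStrings
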